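import Pool.Agent.SCT.StmtsA

set_option autoImplicit false

namespace Pool.Agent.SCT.H27

open MvPolynomial Pool.Agent.SCT

theorem OddPt.mono {L : Type} [Field L] {σ : Type} {G G' : Set (MvPolynomial σ L)} (h : G ⊆ G')
    (h' : OddPt L σ G') : OddPt L σ G := by
  obtain ⟨F, i1, i2, ho, a, ha, hg⟩ := h'
  exact ⟨F, i1, i2, ho, a, ha, fun g hG => hg g (h hG)⟩

/-- transport along an isomorphism of the base fields -/
theorem OddPt.trans {K K' : Type} [Field K] [Field K'] (e : K ≃+* K') {σ : Type}
    {S : Set (MvPolynomial σ K)} {S' : Set (MvPolynomial σ K')}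
    (hS : ∀ g' ∈ S', ∃ g ∈ S, g' = map (e : K →+* K') g) (h : OddPt K σ S) : OddPt K' σ S' := by
  obtain ⟨F, i1, i2, ho, a, ha, hg⟩ := h
  let i3 : Algebra K' F := ((algebraMap K F).comp (e.symm : K' →+* K)).toAlgebra
  have hmap : ∀ x : K', algebraMap K' F x = algebraMap K F (e.symm x) := fun x => rfl
  refine ⟨F, i1, i3, ?_, a, ha, ?_⟩
  · have h1 : Module.finrank K F = Module.finrank K' F := by
      refine Algebra.finrank_eq_of_equiv_equiv e (RingEquiv.refl F) ?_
      ext x
      show algebraMap K' F (e x) = algebraMap K F x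
      rw [hmap, e.symm_apply_apply]
    rw [← h1]
    exact ho
  · intro g' hg'
    obtain ⟨g, hgS, rfl⟩ := hS g' hg'
    have h1 := hg g hgS
    rw [aeval_def, eval₂_map]
    rw [aeval_def] at h1
    have h2 : (algebraMap K' F).comp (e : K →+* K') = algebraMap K F := by
      ext x
      show algebraMap K' F (e x) = algebraMap K F x
      rw [hmap, e.symm_apply_apply]
    rw [h2]
    exact h1

theorem clear_den {A K : Type} [CommRing A] [IsDomain A] [Field K] [Algebra A K]
    [IsFractionRing A K] (p : Polynomial K) : ∃ (a : Polynomial A) (d : A), d ≠ 0 ∧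
      Polynomial.map (algebraMap A K) a = Polynomial.C (algebraMap A K d) * p := by
  obtain ⟨b, hbm, hb⟩ := IsLocalization.integerNormalization_spec (nonZeroDivisors A) p
  refine ⟨IsLocalization.integerNormalization (nonZeroDivisors A) p, b,
    nonZeroDivisors.ne_zero hbm, ?_⟩
  rw [hb]
  ext i
  rw [Polynomial.coeff_smul, Polynomial.coeff_C_mul, Algebra.smul_def]

/-- `Frac (A[X]) = K(X)` -/
theorem frac_pol {A K R' F' : Type} [CommRing A] [IsDomain A] [Field K] [Algebra A K]
    [IsFractionRing A K] [CommRing R'] [Field F'] [Algebra R' F'] [IsFractionRing R' F']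
    (φ : R' ≃+* Polynomial A) :
    ∃ e : F' ≃+* RatFunc K, ∀ a : R', e (algebraMap R' F' a) =
      algebraMap (Polynomial K) (RatFunc K) (Polynomial.map (algebraMap A K) (φ a)) := by
  obtain ⟨g, hg⟩ : ∃ g : Polynomial A →+* RatFunc K,
      g = (algebraMap (Polynomial K) (RatFunc K)).comp (Polynomial.mapRingHom (algebraMap A K)) :=
    ⟨_, rfl⟩
  have hinj : Function.Injective g := by
    rw [hg, RingHom.coe_comp]
    exact (IsFractionRing.injective _ _).comp
      (Polynomial.map_injective _ (IsFractionRing.injective _ _))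
  let alg : Algebra (Polynomial A) (RatFunc K) := g.toAlgebra
  have halg : ∀ a, @algebraMap (Polynomial A) (RatFunc K) _ _ alg a = g a := fun a => rfl
  have hf : @FaithfulSMul (Polynomial A) (RatFunc K) alg.toSMul :=
    (faithfulSMul_iff_algebraMap_injective _ _).2 hinj
  have hfr : @IsFractionRing (Polynomial A) _ (RatFunc K) _ alg := by
    apply IsFractionRing.of_field
    intro z
    obtain ⟨p, q, hq, rfl⟩ := IsFractionRing.div_surjective (A := Polynomial K) z
    obtain ⟨a, d, hd, hp⟩ := clear_den (A := A) p
    obtain ⟨b, d', hd', hq'⟩ := clear_den (A := A) q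
    refine ⟨a * Polynomial.C d', b * Polynomial.C d, ?_⟩
    rw [halg, halg, hg]
    simp only [RingHom.comp_apply, map_mul, Polynomial.coe_mapRingHom, Polynomial.map_C]
    rw [hp, hq']
    simp only [map_mul]
    have h1 : ∀ d : A, d ≠ 0 →
        algebraMap (Polynomial K) (RatFunc K) (Polynomial.C (algebraMap A K d)) ≠ 0 := by
      intro d hd h
      rw [map_eq_zero_iff _ (IsFractionRing.injective _ _), Polynomial.C_eq_zero,
        map_eq_zero_iff _ (IsFractionRing.injective _ _)] at h
      exact hd h
    have h2 : algebraMap (Polynomial K) (RatFunc K) q ≠ 0 :=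
      IsFractionRing.to_map_ne_zero_of_mem_nonZeroDivisors hq
    have h3 := h1 d hd
    have h4 := h1 d' hd'
    field_simp
  refine ⟨@IsFractionRing.ringEquivOfRingEquiv R' F' (Polynomial A) (RatFunc K) _ _ _ _ _ _ alg
    hfr φ, ?_⟩
  intro a
  refine (IsFractionRing.ringEquivOfRingEquiv_algebraMap φ a).trans ?_
  rw [halg, hg]
  rfl

theorem ind (hdes : DesStmt) : IndStmt := by
  intro L _ _ σ _ r
  induction r with
  | zero =>
    intro G f0 f _ _ _ h
    obtain ⟨e, he⟩ : ∃ e : FractionRing (MvPolynomial (Fin 0) L) ≃+* L,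
        ∀ a, e (algebraMap (MvPolynomial (Fin 0) L) _ a) = isEmptyRingEquiv L (Fin 0) a :=
      ⟨IsFractionRing.ringEquivOfRingEquiv (isEmptyRingEquiv L (Fin 0)), fun a =>
        IsFractionRing.ringEquivOfRingEquiv_algebraMap _ a⟩
    have hc : (e : FractionRing (MvPolynomial (Fin 0) L) →+* L).comp
        (algebraMap L (FractionRing (MvPolynomial (Fin 0) L))) = RingHom.id L := by
      ext c
      have h1 := he (C c)
      have h2 : isEmptyRingEquiv L (Fin 0) (C c) = c := by
        rw [isEmptyRingEquiv_apply]
        exact (MvPolynomial.coeff_C 0 c).trans (if_pos rfl)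
      rw [h2] at h1
      exact h1
    refine OddPt.trans e ?_ h
    rintro g' ((hg | hg) | ⟨i, -⟩)
    · refine ⟨_, Or.inl ⟨g', hg, rfl⟩, ?_⟩
      rw [map_map, hc, map_id]
    · rw [Set.mem_singleton_iff] at hg
      refine ⟨_, Or.inr rfl, ?_⟩
      rw [Finset.univ_eq_empty, Finset.sum_empty, add_zero, map_map, hc, map_id, hg]
    · exact i.elim0
  | succ r ih =>
    intro G f0 f hG h0 hf h
    have hinf : Infinite (FractionRing (MvPolynomial (Fin r) L)) :=
      Infinite.of_injective (algebraMap L _) (RingHom.injective _)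
    obtain ⟨e, he⟩ := frac_pol (A := MvPolynomial (Fin r) L)
      (K := FractionRing (MvPolynomial (Fin r) L))
      (F' := FractionRing (MvPolynomial (Fin (r + 1)) L)) (finSuccEquiv L r).toRingEquiv
    have eC : ∀ c : L, e (algebraMap L _ c) =
        algebraMap (FractionRing (MvPolynomial (Fin r) L)) (RatFunc _) (algebraMap L _ c) := by
      intro c
      have h1 := he (C c)
      have h2 : (finSuccEquiv L r).toRingEquiv (C c) = Polynomial.C (C c) := by
        show finSuccEquiv L r (C c) = _
        rw [finSuccEquiv_apply, eval₂Hom_C]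
        rfl
      rw [h2, Polynomial.map_C] at h1
      exact h1
    have e0 : e (algebraMap _ _ (X 0 : MvPolynomial (Fin (r + 1)) L)) = RatFunc.X := by
      have h1 := he (X 0)
      have h2 : (finSuccEquiv L r).toRingEquiv (X 0) = Polynomial.X := finSuccEquiv_X_zero
      rw [h2, Polynomial.map_X] at h1
      exact h1.trans (RatFunc.algebraMap_X)
    have e1 : ∀ i : Fin r, e (algebraMap _ _ (X i.succ : MvPolynomial (Fin (r + 1)) L)) =
        algebraMap (FractionRing (MvPolynomial (Fin r) L)) (RatFunc _)
          (algebraMap _ _ (X i : MvPolynomial (Fin r) L)) := by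
      intro i
      have h1 := he (X i.succ)
      have h2 : (finSuccEquiv L r).toRingEquiv (X i.succ) = Polynomial.C (X i) :=
        finSuccEquiv_X_succ
      rw [h2, Polynomial.map_C] at h1
      exact h1
    have hcomp : (e : FractionRing (MvPolynomial (Fin (r + 1)) L) →+*
        RatFunc (FractionRing (MvPolynomial (Fin r) L))).comp
        (algebraMap L (FractionRing (MvPolynomial (Fin (r + 1)) L))) =
        (algebraMap (FractionRing (MvPolynomial (Fin r) L)) (RatFunc _)).comp
          (algebraMap L (FractionRing (MvPolynomial (Fin r) L))) := by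
      ext c
      exact eC c
    have hd := hdes (FractionRing (MvPolynomial (Fin r) L)) σ
      (map (algebraMap L (FractionRing (MvPolynomial (Fin r) L))) '' G)
      (map (algebraMap L (FractionRing (MvPolynomial (Fin r) L))) f0 +
        ∑ i : Fin r, C (algebraMap (MvPolynomial (Fin r) L)
          (FractionRing (MvPolynomial (Fin r) L)) (X i)) *
            map (algebraMap L (FractionRing (MvPolynomial (Fin r) L))) (f i.succ))
      (map (algebraMap L (FractionRing (MvPolynomial (Fin r) L))) (f 0)) ?_ ?_ ?_ ?_
    · have h3 := ih (G ∪ {f 0}) f0 (fun i => f i.succ) ?_ h0 (fun i => hf _) ?_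
      · refine OddPt.mono ?_ h3
        rintro g ((hg | hg) | ⟨i, rfl⟩)
        · exact Or.inl (Or.inl (Or.inl hg))
        · exact Or.inl (Or.inr hg)
        · refine Fin.cases ?_ (fun i => ?_) i
          · exact Or.inl (Or.inl (Or.inr rfl))
          · exact Or.inr ⟨i, rfl⟩
      · rintro g (hg | hg)
        · exact hG g hg
        · rw [Set.mem_singleton_iff] at hg
          exact ⟨2, hg ▸ hf 0⟩
      · refine OddPt.mono ?_ hd
        rintro g (⟨g', hg | hg, rfl⟩ | hg)
        · exact Or.inl ⟨g', hg, rfl⟩
        · rw [Set.mem_singleton_iff] at hg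
          rw [hg]
          exact Or.inr (Or.inr rfl)
        · rw [Set.mem_singleton_iff] at hg
          rw [hg]
          exact Or.inr (Or.inl rfl)
    · rintro _ ⟨g, hg, rfl⟩
      obtain ⟨d, hd⟩ := hG g hg
      exact ⟨d, hd.map _⟩
    · refine (h0.map _).add (IsHomogeneous.sum _ _ _ fun i _ => ?_)
      have h4 := (isHomogeneous_C σ (algebraMap (MvPolynomial (Fin r) L)
          (FractionRing (MvPolynomial (Fin r) L)) (X i))).mul
        ((hf i.succ).map (algebraMap L (FractionRing (MvPolynomial (Fin r) L))))
      rw [zero_add] at h4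
      exact h4
    · exact (hf 0).map _
    · refine OddPt.trans e ?_ h
      rintro g' (⟨_, ⟨g, hg, rfl⟩, rfl⟩ | hg)
      · refine ⟨_, Or.inl ⟨g, hg, rfl⟩, ?_⟩
        rw [map_map, map_map, hcomp]
      · rw [Set.mem_singleton_iff] at hg
        refine ⟨_, Or.inr rfl, ?_⟩
        rw [hg]
        simp only [map_add, map_sum, map_mul, map_C, map_map, hcomp, Fin.sum_univ_succ]
        have e0' : (e : FractionRing (MvPolynomial (Fin (r + 1)) L) →+*
        RatFunc (FractionRing (MvPolynomial (Fin r) L)))
            (algebraMap _ _ (X 0 : MvPolynomial (Fin (r + 1)) L)) = RatFunc.X := e0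
        have e1' : ∀ i : Fin r, (e : FractionRing (MvPolynomial (Fin (r + 1)) L) →+*
        RatFunc (FractionRing (MvPolynomial (Fin r) L)))
            (algebraMap _ _ (X i.succ : MvPolynomial (Fin (r + 1)) L)) =
            algebraMap (FractionRing (MvPolynomial (Fin r) L)) (RatFunc _)
              (algebraMap _ _ (X i : MvPolynomial (Fin r) L)) := e1
        rw [e0']
        simp only [e1']
        ring

end Pool.Agent.SCT.H27
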